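import Pool.Agent.K1H44.AL.Plan

/-!
Project AL (MP_88bd62_nt), piece SUP: the limsup from the rate.
-/

set_option autoImplicit false

open Finset Filter Topology

namespace Pool.Agent.K1H3.AL

open Pool.Agent.H295R3.W Pool.Agent.K1H44.AL

theorem S_one {y : ℝ} (hy : y ∈ Set.Ico (1 : ℝ) 2) : S y = 1 := by
  have h : ⌊y⌋₊ = 1 := by
    rw [Nat.floor_eq_iff (by linarith [hy.1])]
    refine ⟨by simpa using hy.1, ?_⟩
    have := hy.2
    norm_num
    linarith
  unfold S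
  rw [h]
  simp [f]

theorem decomp {x : ℝ} (hx : 1 ≤ x) : ∃ (N : ℕ) (y : ℝ), y ∈ Set.Ico (1 : ℝ) 2 ∧ x = 2 ^ N * y ∧
    N = Nat.log 2 ⌊x⌋₊ := by
  have hf : ⌊x⌋₊ ≠ 0 := by
    have : 1 ≤ ⌊x⌋₊ := Nat.le_floor (by simpa using hx)
    omega
  refine ⟨Nat.log 2 ⌊x⌋₊, x / 2 ^ (Nat.log 2 ⌊x⌋₊), ⟨?_, ?_⟩, ?_, rfl⟩
  · rw [le_div_iff₀ (by positivity), one_mul]
    have h1 : 2 ^ (Nat.log 2 ⌊x⌋₊) ≤ ⌊x⌋₊ := Nat.pow_log_le_self 2 hf
    have h2 : ((2 ^ (Nat.log 2 ⌊x⌋₊) : ℕ) : ℝ) ≤ (⌊x⌋₊ : ℝ) := by exact_mod_cast h1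
    have h3 := Nat.floor_le (by linarith : (0 : ℝ) ≤ x)
    push_cast at h2
    linarith
  · rw [div_lt_iff₀ (by positivity)]
    have h1 : ⌊x⌋₊ < 2 ^ (Nat.log 2 ⌊x⌋₊ + 1) := Nat.lt_pow_succ_log_self (by norm_num) _
    have h2 : ((⌊x⌋₊ + 1 : ℕ) : ℝ) ≤ ((2 ^ (Nat.log 2 ⌊x⌋₊ + 1) : ℕ) : ℝ) := by exact_mod_cast h1
    have h3 := Nat.lt_floor_add_one x
    push_cast at h2
    rw [pow_succ] at h2
    linarith
  · field_simp

theorem t_SUP : S_SUP := by
  rintro ⟨C, hC⟩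
  have hC0 : 0 ≤ C := by
    have h := hC 1 ⟨le_rfl, by norm_num⟩ 0
    have h2 := (abs_nonneg _).trans h
    simpa using h2
  have hG : ∀ y ∈ Set.Ico (1 : ℝ) 2, |G y| ≤ 1 + C := by
    intro y hy
    have h := hC y hy 0
    simp only [pow_zero, one_mul, Nat.cast_zero, zero_add, pow_one, div_one] at h
    rw [S_one hy] at h
    have h1 : |1 / y| ≤ 1 := by
      rw [abs_of_nonneg (by have := hy.1; positivity), div_le_one (by linarith [hy.1])]
      exact hy.1
    have h2 : |G y| ≤ |1 / y| + |1 / y - G y| := by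
      have h3 := abs_sub_abs_le_abs_sub (G y) (1 / y)
      rw [abs_sub_comm (G y)] at h3
      linarith
    linarith
  -- the supremum is a real number
  set M : EReal := ⨆ y ∈ Set.Ico (1 : ℝ) 2, ((|G y| : ℝ) : EReal) with hM
  have hMle : M ≤ ((1 + C : ℝ) : EReal) := iSup₂_le fun y hy => EReal.coe_le_coe_iff.2 (hG y hy)
  have hMge : ∀ y ∈ Set.Ico (1 : ℝ) 2, ((|G y| : ℝ) : EReal) ≤ M := fun y hy =>
    le_iSup₂ (f := fun y (_ : y ∈ Set.Ico (1 : ℝ) 2) => ((|G y| : ℝ) : EReal)) y hy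
  have h1 : (1 : ℝ) ∈ Set.Ico (1 : ℝ) 2 := ⟨le_rfl, by norm_num⟩
  have hMt : M ≠ ⊤ := (hMle.trans_lt (EReal.coe_lt_top _)).ne
  have hMb : M ≠ ⊥ := ((EReal.bot_lt_coe _).trans_le (hMge 1 h1)).ne'
  obtain ⟨m, hm⟩ : ∃ m : ℝ, (m : EReal) = M := ⟨M.toReal, EReal.coe_toReal hMt hMb⟩
  have hGm : ∀ y ∈ Set.Ico (1 : ℝ) 2, |G y| ≤ m := fun y hy => by
    have h := hMge y hy
    rw [← hm] at h
    exact EReal.coe_le_coe_iff.1 h
  have hup : alpha ≤ M := by
    by_contra hcon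
    rw [not_le, ← hm] at hcon
    obtain ⟨r, hr1, hr2⟩ := EReal.lt_iff_exists_real_btwn.1 hcon
    have hr1' : m < r := EReal.coe_lt_coe_iff.1 hr1
    obtain ⟨K, hK⟩ := exists_nat_gt (C / (r - m))
    have hle : alpha ≤ ((r : ℝ) : EReal) := by
      refine Filter.limsup_le_of_le (by isBoundedDefault) ?_
      filter_upwards [eventually_ge_atTop ((2 : ℝ) ^ K)] with x hx
      have hx1 : (1 : ℝ) ≤ x := (one_le_pow₀ (by norm_num)).trans hx
      obtain ⟨N, y, hy, hxy, hN⟩ := decomp hx1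
      have hKN : K ≤ N := by
        rw [hN]
        have h3 : 2 ^ K ≤ ⌊x⌋₊ := Nat.le_floor (by push_cast; exact hx)
        exact Nat.le_log_of_pow_le (by norm_num) h3
      have h4 := hC y hy N
      rw [← hxy, pow_one] at h4
      have h5 : C / ((N : ℝ) + 1) ≤ r - m := by
        have h6 : (K : ℝ) ≤ N := by exact_mod_cast hKN
        rw [div_le_iff₀ (by positivity)]
        rw [div_lt_iff₀ (by linarith)] at hK
        nlinarith
      have h7 : |S x / x| ≤ |(-1) ^ N * G y| + |S x / x - (-1) ^ N * G y| := by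
        have h8 := abs_sub_abs_le_abs_sub (S x / x) ((-1) ^ N * G y)
        linarith
      rw [abs_mul, abs_pow, abs_neg, abs_one, one_pow, one_mul] at h7
      rw [abs_div, abs_of_pos (by linarith : (0 : ℝ) < x)] at h7
      have h9 := hGm y hy
      exact EReal.coe_le_coe_iff.2 (by linarith)
    exact absurd hr2 (not_lt.2 hle)
  have hlow : M ≤ alpha := by
    refine iSup₂_le fun y hy => ?_
    by_contra hcon
    rw [not_le] at hcon
    obtain ⟨r, hr1, hr2⟩ := EReal.lt_iff_exists_real_btwn.1 hcon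
    have hr2' : r < |G y| := EReal.coe_lt_coe_iff.1 hr2
    have hle : ((r : ℝ) : EReal) ≤ alpha := by
      refine Filter.le_limsup_of_frequently_le ?_ (by isBoundedDefault)
      rw [frequently_atTop]
      intro a
      obtain ⟨K, hK⟩ := exists_nat_gt (C / (|G y| - r))
      obtain ⟨L, hL⟩ := pow_unbounded_of_one_lt a (by norm_num : (1 : ℝ) < 2)
      set N := max K L with hN
      refine ⟨2 ^ N * y, ?_, ?_⟩
      · have h3 : (2 : ℝ) ^ L ≤ 2 ^ N := pow_le_pow_right₀ (by norm_num) (le_max_right _ _)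
        have h4 : (2 : ℝ) ^ N * 1 ≤ 2 ^ N * y := mul_le_mul_of_nonneg_left hy.1 (by positivity)
        linarith
      · have h4 := hC y hy N
        rw [pow_one] at h4
        have h5 : C / ((N : ℝ) + 1) ≤ |G y| - r := by
          have h6 : (K : ℝ) ≤ N := by exact_mod_cast (le_max_left K L)
          rw [div_le_iff₀ (by positivity)]
          rw [div_lt_iff₀ (by linarith)] at hK
          nlinarith
        have hpos : (0 : ℝ) < 2 ^ N * y := by
          have := hy.1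
          positivity
        have h7 : |(-1) ^ N * G y| ≤ |S (2 ^ N * y) / (2 ^ N * y)| +
            |S (2 ^ N * y) / (2 ^ N * y) - (-1) ^ N * G y| := by
          have h8 := abs_sub_abs_le_abs_sub ((-1) ^ N * G y) (S (2 ^ N * y) / (2 ^ N * y))
          rw [abs_sub_comm ((-1) ^ N * G y)] at h8
          linarith
        rw [abs_mul, abs_pow, abs_neg, abs_one, one_pow, one_mul] at h7
        rw [abs_div, abs_of_pos hpos] at h7
        exact EReal.coe_le_coe_iff.2 (by linarith)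
    exact absurd hr1 (not_lt.2 hle)
  have heq : alpha = M := le_antisymm hup hlow
  refine ⟨heq, ?_⟩
  rw [heq]
  exact hMle.trans_lt (EReal.coe_lt_top _)

end Pool.Agent.K1H3.AL
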